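import Pool.Agent.ExpPow.Hermite

/-! Analytic estimate and the determinant inequality. -/

namespace ExpPow

open Polynomial Finset
open scoped Nat BigOperators

theorem exp_mul_sub_le (f : ℝ[X]) (s B : ℝ) (hs : 0 ≤ s)
    (hB : ∀ x, 0 ≤ x → x ≤ s → |f.eval x| ≤ B) :
    |Real.exp s * eval 0 (sumIDeriv f) - eval s (sumIDeriv f)| ≤ Real.exp s * (s * B) := by
  have hder : ∀ x ∈ Set.Icc (0 : ℝ) s,
      HasDerivWithinAt (fun x : ℝ => -(Real.exp (-x) * (sumIDeriv f).eval x))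
        (Real.exp (-x) * f.eval x) (Set.Icc 0 s) x := by
    intro x _
    apply HasDerivAt.hasDerivWithinAt
    have h1 : HasDerivAt (fun x : ℝ => Real.exp (-x)) (-Real.exp (-x)) x := by
      have := ((hasDerivAt_id x).neg).exp
      simpa using this
    have h2 := (sumIDeriv f).hasDerivAt x
    have h3 := (h1.mul h2).neg
    have h4 : (sumIDeriv f).eval x = f.eval x + (derivative (sumIDeriv f)).eval x := by
      conv_lhs => rw [sumIDeriv_eq_self_add f]
      rw [eval_add]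
    have h5 : -(-Real.exp (-x) * (sumIDeriv f).eval x +
        Real.exp (-x) * (derivative (sumIDeriv f)).eval x) = Real.exp (-x) * f.eval x := by
      rw [h4]
      ring
    rw [h5] at h3
    exact h3
  have hbd : ∀ x ∈ Set.Ico (0 : ℝ) s, ‖Real.exp (-x) * f.eval x‖ ≤ B := by
    intro x hx
    rw [norm_mul, Real.norm_eq_abs, Real.norm_eq_abs, abs_of_pos (Real.exp_pos _)]
    have h1 : Real.exp (-x) ≤ 1 := Real.exp_le_one_iff.mpr (by linarith [hx.1])
    have h2 := hB x hx.1 hx.2.le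
    calc Real.exp (-x) * |f.eval x| ≤ 1 * |f.eval x| :=
          mul_le_mul_of_nonneg_right h1 (abs_nonneg _)
      _ ≤ B := by linarith
  have key := norm_image_sub_le_of_norm_deriv_le_segment' hder hbd s (Set.right_mem_Icc.mpr hs)
  rw [sub_zero, Real.norm_eq_abs] at key
  have h6 : Real.exp s * eval 0 (sumIDeriv f) - eval s (sumIDeriv f) =
      Real.exp s * (-(Real.exp (-s) * (sumIDeriv f).eval s) -
        -(Real.exp (-0) * (sumIDeriv f).eval 0)) := by
    have : Real.exp s * Real.exp (-s) = 1 := by rw [← Real.exp_add]; simp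
    simp only [neg_zero, Real.exp_zero]
    linear_combination (eval s (sumIDeriv f)) * this
  rw [h6, abs_mul, abs_of_pos (Real.exp_pos _)]
  apply mul_le_mul_of_nonneg_left _ (Real.exp_pos _).le
  linarith

theorem abs_eval_hf_le {k : ℕ} (μ : Fin (k + 1) → ℕ) (m r : ℕ) (hμ : ∀ l, μ l ≤ m)
    (j : Fin (k + 1)) (x : ℝ) (h0 : 0 ≤ x) (hx : x ≤ m) :
    |((hf μ r j).map (Int.castRingHom ℝ)).eval x| ≤ (m : ℝ) ^ (r * k + (r - 1)) := by
  unfold hf
  rw [Polynomial.map_mul, Polynomial.map_pow, Polynomial.map_prod, eval_mul, eval_pow, eval_prod,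
    abs_mul, abs_pow, Finset.abs_prod]
  have hl : ∀ l, |(((X : ℤ[X]) - C (μ l : ℤ)).map (Int.castRingHom ℝ)).eval x| ≤ (m : ℝ) := by
    intro l
    rw [Polynomial.map_sub, map_X, map_C, eval_sub, eval_X, eval_C]
    simp only [eq_intCast, Int.cast_natCast]
    have h1 : (μ l : ℝ) ≤ m := by exact_mod_cast hμ l
    have h2 : (0 : ℝ) ≤ μ l := by positivity
    rw [abs_le]
    constructor <;> linarith
  rw [add_comm (r * k), pow_add]
  apply mul_le_mul
  · exact pow_le_pow_left₀ (abs_nonneg _) (hl j) _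
  · calc ∏ l ∈ univ.erase j, |eval x (Polynomial.map (Int.castRingHom ℝ) (((X : ℤ[X]) - C (μ l : ℤ)) ^ r))|
        ≤ ∏ l ∈ univ.erase j, (m : ℝ) ^ r := by
          apply Finset.prod_le_prod
          · intro l _
            exact abs_nonneg _
          · intro l _
            rw [Polynomial.map_pow, eval_pow, abs_pow]
            exact pow_le_pow_left₀ (abs_nonneg _) (hl l) _
      _ = (m : ℝ) ^ (r * k) := by
          rw [Finset.prod_const, Finset.card_erase_of_mem (mem_univ _), Finset.card_univ,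
            Fintype.card_fin, Nat.add_sub_cancel, ← pow_mul]
  · positivity
  · positivity

/-- Approximation property of the Hermite matrix. -/
theorem hermite_approx {k : ℕ} (μ : Fin (k + 1) → ℕ) (h0 : μ 0 = 0)
    (m : ℕ) (hμ : ∀ l, μ l ≤ m) (r : ℕ) (hr : 0 < r)
    (G : Matrix (Fin (k + 1)) (Fin (k + 1)) ℤ)
    (hG : ∀ j i, eval (μ i : ℤ) (sumIDeriv (hf μ r j)) = ((r - 1)! : ℤ) * G j i)
    (j i : Fin (k + 1)) :
    |Real.exp (μ i) * G j 0 - G j i| ≤ Real.exp m * (m : ℝ) ^ (r * (k + 1)) / ((r - 1)! : ℝ) := by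
  have hfac : (0 : ℝ) < ((r - 1)! : ℝ) := by positivity
  have hcast : ∀ a : ℤ, eval (a : ℝ) (sumIDeriv ((hf μ r j).map (Int.castRingHom ℝ))) =
      ((eval a (sumIDeriv (hf μ r j)) : ℤ) : ℝ) := by
    intro a
    rw [sumIDeriv_map, eval_intCast_map]
    simp
  have hμi : (μ i : ℝ) ≤ m := by exact_mod_cast hμ i
  have h1 := exp_mul_sub_le ((hf μ r j).map (Int.castRingHom ℝ)) (μ i : ℝ)
    ((m : ℝ) ^ (r * k + (r - 1))) (by positivity)
    (fun x hx0 hx1 => abs_eval_hf_le μ m r hμ j x hx0 (hx1.trans hμi))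
  have h2 : eval (μ i : ℝ) (sumIDeriv ((hf μ r j).map (Int.castRingHom ℝ))) =
      ((r - 1)! : ℝ) * G j i := by
    have := hcast (μ i : ℤ)
    rw [Int.cast_natCast] at this
    rw [this, hG j i]
    push_cast
    ring
  have h3 : eval (0 : ℝ) (sumIDeriv ((hf μ r j).map (Int.castRingHom ℝ))) =
      ((r - 1)! : ℝ) * G j 0 := by
    have := hcast 0
    rw [Int.cast_zero] at this
    rw [this]
    have h4 := hG j 0
    rw [h0, Nat.cast_zero] at h4
    rw [h4]
    push_cast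
    ring
  rw [h2, h3] at h1
  rw [le_div_iff₀ hfac]
  have h5 : |Real.exp (μ i) * G j 0 - G j i| * ((r - 1)! : ℝ) =
      |Real.exp (μ i) * (((r - 1)! : ℝ) * G j 0) - ((r - 1)! : ℝ) * G j i| := by
    rw [← abs_of_pos hfac, ← abs_mul, abs_of_pos hfac]
    congr 1
    ring
  rw [h5]
  refine h1.trans ?_
  apply mul_le_mul (Real.exp_le_exp.mpr hμi) _ (by positivity) (Real.exp_pos _).le
  have h6 : r * (k + 1) = (r * k + (r - 1)) + 1 := by
    rw [mul_add, mul_one]
    omega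
  rw [h6, pow_succ, mul_comm]
  exact mul_le_mul_of_nonneg_left hμi (by positivity)

/-- Size of the first column. -/
theorem hermite_size {k : ℕ} (μ : Fin (k + 1) → ℕ) (h0 : μ 0 = 0)
    (m : ℕ) (hμ : ∀ l, μ l ≤ m) (r : ℕ) (hr : 0 < r)
    (G : Matrix (Fin (k + 1)) (Fin (k + 1)) ℤ)
    (hG : ∀ j i, eval (μ i : ℤ) (sumIDeriv (hf μ r j)) = ((r - 1)! : ℤ) * G j i)
    (j : Fin (k + 1)) :
    |(G j 0 : ℝ)| ≤ ((r * (k + 1) + m) ! : ℝ) / ((r - 1)! : ℝ) := by
  have hfac : (0 : ℝ) < ((r - 1)! : ℝ) := by positivity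
  have h1 := abs_eval_zero_hf μ m r hμ j
  have h4 := hG j 0
  rw [h0, Nat.cast_zero] at h4
  rw [h4] at h1
  rw [le_div_iff₀ hfac]
  have h2 : ((|((r - 1)! : ℤ) * G j 0| : ℤ) : ℝ) ≤ ((r * k + (r - 1) + m) ! : ℝ) := by
    exact_mod_cast h1
  have h3 : ((r * k + (r - 1) + m) ! : ℝ) ≤ ((r * (k + 1) + m) ! : ℝ) := by
    have : (r * k + (r - 1) + m) ! ≤ (r * (k + 1) + m) ! := by
      apply Nat.factorial_le
      rw [mul_add, mul_one]
      omega
    exact_mod_cast this
  rw [Int.cast_abs] at h2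
  push_cast at h2
  rw [abs_mul, abs_of_pos hfac] at h2
  linarith

end ExpPow
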