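import Pool.Agent.ExpPow.Window

/-! Asymptotics: long windows contain at most `k` exceptional exponents. -/

namespace ExpPow

open Finset Filter
open scoped Nat BigOperators

/-- Eventual facts used in the optimisation. -/
theorem evt (A θ η ε K C : ℝ) (hθ1 : θ < 1) (hη : 0 < η) (hε : 0 < ε) :
    ∃ n₀ : ℕ, ∀ n ≥ n₀, 1 ≤ n ∧ 1 ≤ Real.log n ∧ 1 ≤ η * Real.log n ∧
      (n : ℝ) ^ θ * Real.log n ≤ ε * n ∧ Real.log n ≤ ε * n ∧ C ≤ ε * n ∧ K ≤ Real.log n ∧
      Real.log (Real.log n) - Real.log A ≤ η * Real.log n := by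
  have hlog : Tendsto (fun n : ℕ => Real.log (n : ℝ)) atTop atTop :=
    Real.tendsto_log_atTop.comp tendsto_natCast_atTop_atTop
  have h0 : ∀ᶠ n : ℕ in atTop, 1 ≤ n := eventually_ge_atTop 1
  have h1 : ∀ᶠ n : ℕ in atTop, 1 ≤ Real.log (n : ℝ) := hlog.eventually (eventually_ge_atTop 1)
  have h2 : ∀ᶠ n : ℕ in atTop, 1 / η ≤ Real.log (n : ℝ) :=
    hlog.eventually (eventually_ge_atTop (1 / η))
  have h3 : ∀ᶠ n : ℕ in atTop, (n : ℝ) ^ θ * Real.log n ≤ ε * n := by
    have h := (isLittleO_log_rpow_atTop (sub_pos.mpr hθ1)).bound hε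
    have h' := tendsto_natCast_atTop_atTop (R := ℝ) |>.eventually h
    filter_upwards [h', h0, h1] with n hn hn0 hn1
    have hnpos : (0 : ℝ) < n := by exact_mod_cast hn0
    rw [Real.norm_eq_abs, Real.norm_eq_abs, abs_of_nonneg (by linarith),
      abs_of_nonneg (by positivity)] at hn
    calc (n : ℝ) ^ θ * Real.log n ≤ (n : ℝ) ^ θ * (ε * (n : ℝ) ^ (1 - θ)) :=
          mul_le_mul_of_nonneg_left hn (by positivity)
      _ = ε * ((n : ℝ) ^ θ * (n : ℝ) ^ (1 - θ)) := by ring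
      _ = ε * n := by
          rw [← Real.rpow_add hnpos]
          simp
  have h4 : ∀ᶠ n : ℕ in atTop, Real.log n ≤ ε * n := by
    have h := Real.isLittleO_log_id_atTop.bound hε
    have h' := tendsto_natCast_atTop_atTop (R := ℝ) |>.eventually h
    filter_upwards [h', h0, h1] with n hn hn0 hn1
    rw [Real.norm_eq_abs, Real.norm_eq_abs, abs_of_nonneg (by linarith), id,
      abs_of_nonneg (by positivity)] at hn
    exact hn
  have h5 : ∀ᶠ n : ℕ in atTop, C / ε ≤ (n : ℝ) :=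
    tendsto_natCast_atTop_atTop.eventually (eventually_ge_atTop (C / ε))
  have h6 : ∀ᶠ n : ℕ in atTop, K ≤ Real.log (n : ℝ) := hlog.eventually (eventually_ge_atTop K)
  have h7 : ∀ᶠ n : ℕ in atTop, -Real.log A / (η / 2) ≤ Real.log (n : ℝ) :=
    hlog.eventually (eventually_ge_atTop _)
  have h8 : ∀ᶠ n : ℕ in atTop, Real.log (Real.log (n : ℝ)) ≤ η / 2 * Real.log n := by
    have h := Real.isLittleO_log_id_atTop.bound (half_pos hη)
    have h' := hlog.eventually h
    filter_upwards [h', h0, h1] with n hn hn0 hn1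
    rw [Real.norm_eq_abs, Real.norm_eq_abs, id, abs_of_nonneg (a := Real.log (n : ℝ)) (by linarith)]
      at hn
    exact (le_abs_self _).trans hn
  have hall := h0.and (h1.and (h2.and (h3.and (h4.and (h5.and (h6.and (h7.and h8)))))))
  obtain ⟨n₀, hn₀⟩ := eventually_atTop.mp hall
  refine ⟨n₀, fun n hn => ?_⟩
  obtain ⟨g0, g1, g2, g3, g4, g5, g6, g7, g8⟩ := hn₀ n hn
  refine ⟨g0, g1, ?_, g3, g4, ?_, g6, ?_⟩
  · rw [div_le_iff₀ hη] at g2
    linarith
  · rw [div_le_iff₀ hε] at g5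
    linarith
  · rw [div_le_iff₀ (half_pos hη)] at g7
    linarith

theorem log_fact_pred {r : ℕ} (hr : 0 < r) :
    (r : ℝ) * Real.log r - r - Real.log r ≤ Real.log ((r - 1)! : ℝ) := by
  have hr' : (0 : ℝ) < r := by exact_mod_cast hr
  have h1 := Real.pow_div_factorial_le_exp (r : ℝ) hr'.le r
  have h2 : Real.log ((r : ℝ) ^ r / (r ! : ℝ)) ≤ r := by
    rw [Real.log_le_iff_le_exp (by positivity)]
    exact h1
  rw [Real.log_div (by positivity) (by positivity), Real.log_pow] at h2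
  have h3 : ((r ! : ℕ) : ℝ) = r * ((r - 1)! : ℕ) := by
    rw [← Nat.mul_factorial_pred hr.ne']
    push_cast
    ring
  rw [h3, Real.log_mul (by positivity) (by positivity)] at h2
  linarith


theorem window_empty {k : ℕ} (hk : 1 ≤ k) (θ c : ℝ) (hθ : 0 ≤ θ) (hc : 0 < c)
    (h : 1 + ((k : ℝ) ^ 2 - 1) * θ < c * k * (1 - (k + 1) * θ)) :
    ∃ n₀ : ℕ, 1 ≤ n₀ ∧ ∀ n ≥ n₀, ∀ t : Fin (k + 1) → ℕ, StrictMono t → n ≤ t 0 →
      (∀ i, (t i : ℝ) ≤ n + (n : ℝ) ^ θ) →
      ¬ ∀ i, distToNearestInt (Real.exp (t i)) ≤ Real.exp (-(c * t i)) := by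
  have hk' : (1 : ℝ) ≤ k := by exact_mod_cast hk
  have hkpos : (0 : ℝ) < k := by linarith
  have hk2 : 0 ≤ (k : ℝ) ^ 2 - 1 := by nlinarith
  have hB : 0 < 1 + ((k : ℝ) ^ 2 - 1) * θ := by positivity
  have hφ : 0 < 1 - (k + 1) * θ := by
    by_contra hcon
    have : c * k * (1 - (k + 1) * θ) ≤ 0 :=
      mul_nonpos_of_nonneg_of_nonpos (by positivity) (not_lt.mp hcon)
    linarith
  have hθ1 : θ < 1 := by nlinarith
  obtain ⟨A, hA1, hA2⟩ : ∃ A, 1 / (k * (1 - (k + 1) * θ)) < A ∧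
      A < c / (1 + ((k : ℝ) ^ 2 - 1) * θ) := by
    apply _root_.exists_between
    rw [div_lt_div_iff₀ (by positivity) hB]
    linarith
  have hApos : 0 < A := lt_trans (by positivity) hA1
  have hκ : 0 < k * A * (1 - (k + 1) * θ) - 1 := by
    rw [div_lt_iff₀ (by positivity)] at hA1
    linarith
  have hlam : 0 < c - A * (1 + ((k : ℝ) ^ 2 - 1) * θ) := by
    rw [lt_div_iff₀ hB] at hA2
    linarith
  set κ := k * A * (1 - (k + 1) * θ) - 1 with hκdef
  set lam := c - A * (1 + ((k : ℝ) ^ 2 - 1) * θ) with hlamdef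
  obtain ⟨η, hη0, hη1, hη2, hη3⟩ : ∃ η : ℝ, 0 < η ∧ 2 * η * k * A ≤ κ / 2 ∧
      2 * η * k * A ≤ lam / 2 ∧ 2 * η ≤ 1 - (k + 1) * θ := by
    refine ⟨min (min (κ / (4 * k * A)) (lam / (4 * k * A))) ((1 - (k + 1) * θ) / 2),
      ?_, ?_, ?_, ?_⟩
    · refine lt_min (lt_min ?_ ?_) ?_ <;> positivity
    · have h1 : min (min (κ / (4 * k * A)) (lam / (4 * k * A))) ((1 - (k + 1) * θ) / 2) ≤
          κ / (4 * k * A) := (min_le_left _ _).trans (min_le_left _ _)
      rw [le_div_iff₀ (by positivity)] at h1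
      linarith
    · have h1 : min (min (κ / (4 * k * A)) (lam / (4 * k * A))) ((1 - (k + 1) * θ) / 2) ≤
          lam / (4 * k * A) := (min_le_left _ _).trans (min_le_right _ _)
      rw [le_div_iff₀ (by positivity)] at h1
      linarith
    · have h1 : min (min (κ / (4 * k * A)) (lam / (4 * k * A))) ((1 - (k + 1) * θ) / 2) ≤
          (1 - (k + 1) * θ) / 2 := min_le_right _ _
      linarith
  obtain ⟨ε, hε0, hε1, hε2, hε3⟩ : ∃ ε : ℝ, 0 < ε ∧ ε * (2 * k + 3) ≤ κ / 2 ∧
      ε * (2 * k + 3 + 2 * (1 + 2 * k * η + ((k : ℝ) ^ 2 - 1) * θ)) ≤ lam / 2 ∧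
      ε * (2 * k + 3) ≤ 1 / 2 := by
    have hq : 0 < 2 * (k : ℝ) + 3 + 2 * (1 + 2 * k * η + ((k : ℝ) ^ 2 - 1) * θ) := by positivity
    refine ⟨min (min (κ / 2 / (2 * k + 3))
      (lam / 2 / (2 * k + 3 + 2 * (1 + 2 * k * η + ((k : ℝ) ^ 2 - 1) * θ))))
      (1 / 2 / (2 * k + 3)), ?_, ?_, ?_, ?_⟩
    · refine lt_min (lt_min ?_ ?_) ?_ <;> positivity
    · rw [← le_div_iff₀ (by positivity)]
      exact (min_le_left _ _).trans (min_le_left _ _)
    · rw [← le_div_iff₀ (by positivity)]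
      exact (min_le_left _ _).trans (min_le_right _ _)
    · rw [← le_div_iff₀ (by positivity)]
      exact min_le_right _ _
  obtain ⟨n₀, hn₀⟩ := evt A θ η ε (2 * (k + 1) * A) (Real.log ((k + 1)! : ℝ) + 1) hθ1 hη0 hε0
  refine ⟨max n₀ 1, le_max_right _ _, ?_⟩
  intro n hn t ht htn htw hexc
  obtain ⟨g0, g1, g2, g3, g4, g5, g6, g7⟩ := hn₀ n ((le_max_left _ _).trans hn)
  have hnpos : (0 : ℝ) < n := by exact_mod_cast g0
  set l := Real.log (n : ℝ) with hl
  have hlpos : 0 < l := by linarith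
  set P := (n : ℝ) ^ θ with hP
  have hPpos : 0 < P := by positivity
  have hP1 : 1 ≤ P := Real.one_le_rpow (by exact_mod_cast g0) hθ
  have hPl : P ≤ ε * n := by
    have := mul_le_mul_of_nonneg_left g1 hPpos.le
    linarith
  -- the window length
  set m := ⌊P⌋₊ with hmdef
  have hm1 : 1 ≤ m := by
    rw [hmdef, Nat.one_le_floor_iff]
    exact hP1
  have hmP : (m : ℝ) ≤ P := Nat.floor_le hPpos.le
  have hm1' : (1 : ℝ) ≤ m := by exact_mod_cast hm1
  have hlogm0 : 0 ≤ Real.log m := Real.log_nonneg hm1'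
  have hlogm : Real.log m ≤ θ * l := by
    rw [hl, ← Real.log_rpow hnpos]
    exact Real.log_le_log (by linarith) hmP
  have hspan : ∀ i, t i ≤ t 0 + m := by
    intro i
    have h1 : ((t i - t 0 : ℕ) : ℝ) ≤ P := by
      have h2 := htw i
      have h3 : (n : ℝ) ≤ t 0 := by exact_mod_cast htn
      have h4 : ((t i - t 0 : ℕ) : ℝ) = (t i : ℝ) - t 0 := by
        rw [Nat.cast_sub]
        exact ht.monotone (Fin.zero_le i)
      rw [h4]
      linarith
    have h5 : t i - t 0 ≤ m := Nat.le_floor h1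
    omega
  obtain ⟨p, hp, hmp, hp2⟩ := Nat.exists_prime_lt_and_le_two_mul m (by omega)
  have hppos : (0 : ℝ) < p := by exact_mod_cast hp.pos
  set x := A * n / l with hx
  have hxpos : 0 < x := by positivity
  set q := ⌈x / p⌉₊ with hq
  have hqpos : 0 < q := Nat.ceil_pos.mpr (by positivity)
  set r := p * q with hr
  have hrpos : 0 < r := Nat.mul_pos hp.pos hqpos
  have hrx : x ≤ r := by
    have h1 : x / p ≤ q := Nat.le_ceil _
    rw [div_le_iff₀ hppos] at h1
    rw [hr]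
    push_cast
    linarith
  have hrx2 : (r : ℝ) ≤ x + 2 * m := by
    have h1 : (q : ℝ) < x / p + 1 := Nat.ceil_lt_add_one (by positivity)
    have h2 : (p : ℝ) * q ≤ p * (x / p + 1) := mul_le_mul_of_nonneg_left h1.le hppos.le
    have h3 : (p : ℝ) * (x / p + 1) = x + p := by
      field_simp
    have h4 : (p : ℝ) ≤ 2 * m := by exact_mod_cast hp2
    rw [hr]
    push_cast
    linarith
  have hxl : x * l = A * n := by
    rw [hx]
    field_simp
  have hr0 : (0 : ℝ) < r := by exact_mod_cast hrpos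
  have hr1 : (1 : ℝ) ≤ r := by exact_mod_cast hrpos
  -- size of R
  have hRn : (r : ℝ) * (k + 1) + m ≤ n := by
    have h1 : x * (2 * (k + 1)) ≤ n := by
      have : x * (2 * (k + 1)) * l ≤ n * l := by
        calc x * (2 * (k + 1)) * l = 2 * (k + 1) * (x * l) := by ring
          _ = n * (2 * (k + 1) * A) := by rw [hxl]; ring
          _ ≤ n * l := mul_le_mul_of_nonneg_left g6 hnpos.le
      exact le_of_mul_le_mul_right this hlpos
    have h2 : (r : ℝ) * (k + 1) ≤ (x + 2 * m) * (k + 1) :=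
      mul_le_mul_of_nonneg_right hrx2 (by positivity)
    have h3 : (m : ℝ) * (2 * k + 3) ≤ n / 2 := by
      calc (m : ℝ) * (2 * k + 3) ≤ (ε * n) * (2 * k + 3) :=
            mul_le_mul_of_nonneg_right (hmP.trans hPl) (by positivity)
        _ = (ε * (2 * k + 3)) * n := by ring
        _ ≤ 1 / 2 * n := mul_le_mul_of_nonneg_right hε3 hnpos.le
        _ = n / 2 := by ring
    have h4 : (m : ℝ) ≤ m * (2 * k + 3) := by
      have := mul_le_mul_of_nonneg_left (show (1 : ℝ) ≤ 2 * k + 3 by linarith) (show (0 : ℝ) ≤ m by linarith)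
      linarith
    linarith
  have hrn : (r : ℝ) ≤ n := by
    have := mul_nonneg hr0.le hkpos.le
    linarith
  have hlogr_le : Real.log r ≤ l := Real.log_le_log hr0 hrn
  have hlogR : Real.log ((r : ℝ) * (k + 1) + m) ≤ l := Real.log_le_log (by positivity) hRn
  have hlogr : (1 - η) * l ≤ Real.log r := by
    have h1 : Real.log x ≤ Real.log r := Real.log_le_log hxpos hrx
    have h2 : Real.log x = Real.log A + l - Real.log l := by
      rw [hx, Real.log_div (by positivity) hlpos.ne', Real.log_mul hApos.ne' hnpos.ne']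
    linarith
  have hL := log_fact_pred hrpos
  set L := Real.log ((r - 1)! : ℝ) with hLdef
  have hL2 : (r : ℝ) * ((1 - 2 * η) * l) - l ≤ L := by
    have h1 : (r : ℝ) * ((1 - η) * l) ≤ r * Real.log r := mul_le_mul_of_nonneg_left hlogr hr0.le
    have h2 : (r : ℝ) * 1 ≤ r * (η * l) := mul_le_mul_of_nonneg_left g2 hr0.le
    linarith
  have hδ : ∀ i, distToNearestInt (Real.exp (t i)) ≤ Real.exp (-(c * n)) := by
    intro i
    refine (hexc i).trans (Real.exp_le_exp.mpr ?_)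
    have h1 : (n : ℝ) ≤ t i := by exact_mod_cast htn.trans (ht.monotone (Fin.zero_le i))
    have h2 := mul_le_mul_of_nonneg_left h1 hc.le
    linarith
  have hpr : p ∣ r := Dvd.intro _ rfl
  have ht0 : (t 0 : ℝ) ≤ n + P := htw 0
  have hrm : (r : ℝ) * (k + 1) * Real.log m ≤ r * (k + 1) * (θ * l) :=
    mul_le_mul_of_nonneg_left hlogm (by positivity)
  rcases window_log hk t ht m hm1 hspan r p hrpos hp hmp hpr (c * n) hδ with h1 | h1
  · have h2 : (k : ℝ) * (m + r * (k + 1) * Real.log m - L) ≤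
        k * (P + r * (k + 1) * (θ * l) - (r * ((1 - 2 * η) * l) - l)) :=
      mul_le_mul_of_nonneg_left (by linarith) hkpos.le
    have h3 : (k : ℝ) * (P + r * (k + 1) * (θ * l) - (r * ((1 - 2 * η) * l) - l)) =
        k * P + k * l - k * (r * l) * (1 - (k + 1) * θ - 2 * η) := by ring
    have h4 : x * l ≤ r * l := mul_le_mul_of_nonneg_right hrx hlpos.le
    rw [hxl] at h4
    have h5 : k * (A * n) * (1 - (k + 1) * θ - 2 * η) ≤
        k * (r * l) * (1 - (k + 1) * θ - 2 * η) :=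
      mul_le_mul_of_nonneg_right (mul_le_mul_of_nonneg_left h4 hkpos.le) (by linarith)
    have h6 : k * (A * n) * (1 - (k + 1) * θ - 2 * η) = (κ + 1 - 2 * η * k * A) * n := by
      rw [hκdef]
      ring
    have h7 : (κ / 2 + 1) * n ≤ (κ + 1 - 2 * η * k * A) * n :=
      mul_le_mul_of_nonneg_right (by linarith) hnpos.le
    have h8 : k * P ≤ k * (ε * n) := mul_le_mul_of_nonneg_left hPl hkpos.le
    have h9 : k * l ≤ k * (ε * n) := mul_le_mul_of_nonneg_left g4 hkpos.le
    have h10 : ε * (2 * k + 3) * n ≤ κ / 2 * n := mul_le_mul_of_nonneg_right hε1 hnpos.le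
    have h11 : 0 < ε * n := by positivity
    linarith
  · have h2 : ((r : ℝ) * (k + 1) + m) * Real.log ((r : ℝ) * (k + 1) + m) ≤
        ((r : ℝ) * (k + 1) + m) * l := mul_le_mul_of_nonneg_left hlogR (by positivity)
    have h3 : ((k : ℝ) - 1) * (m + r * (k + 1) * Real.log m - L) ≤
        (k - 1) * (m + r * (k + 1) * (θ * l) - L) :=
      mul_le_mul_of_nonneg_left (by linarith) (by linarith)
    have h4 : k * (r * ((1 - 2 * η) * l) - l) ≤ k * L := mul_le_mul_of_nonneg_left hL2 hkpos.le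
    set B := 1 + 2 * k * η + ((k : ℝ) ^ 2 - 1) * θ with hBdef
    have hBpos : 0 < B := by positivity
    have h5 : (r : ℝ) * l * B ≤ (A * n + 2 * (m * l)) * B := by
      refine mul_le_mul_of_nonneg_right ?_ hBpos.le
      have := mul_le_mul_of_nonneg_right hrx2 hlpos.le
      linarith
    have h6 : (m : ℝ) * l ≤ ε * n := (mul_le_mul_of_nonneg_right hmP hlpos.le).trans g3
    have h7 : k * (m : ℝ) ≤ k * (ε * n) :=
      mul_le_mul_of_nonneg_left (hmP.trans hPl) hkpos.le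
    have h8 : k * l ≤ k * (ε * n) := mul_le_mul_of_nonneg_left g4 hkpos.le
    have h9 : (A * n + 2 * (m * l)) * B ≤ (A * n + 2 * (ε * n)) * B :=
      mul_le_mul_of_nonneg_right (by linarith) hBpos.le
    have h10 : ε * (2 * k + 3 + 2 * B) * n ≤ lam / 2 * n :=
      mul_le_mul_of_nonneg_right hε2 hnpos.le
    have h11 : A * n * B = A * (1 + ((k : ℝ) ^ 2 - 1) * θ) * n + 2 * η * k * A * n := by
      rw [hBdef]
      ring
    have h12 : 2 * η * k * A * n ≤ lam / 2 * n := mul_le_mul_of_nonneg_right hη2 hnpos.le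
    have h13 : c * n = A * (1 + ((k : ℝ) ^ 2 - 1) * θ) * n + lam * n := by
      rw [hlamdef]
      ring
    have h14 : 0 < ε * n := by positivity
    have h15 : ((r : ℝ) * (k + 1) + m) * l + (k - 1) * (m + r * (k + 1) * (θ * l) - L) - L =
        r * l * (k + 1) + m * l + (k - 1) * m + ((k : ℝ) ^ 2 - 1) * θ * (r * l) - k * L := by
      ring
    have h16 : k * (r * ((1 - 2 * η) * l) - l) = k * (1 - 2 * η) * (r * l) - k * l := by ring
    have h17 : r * l * (k + 1) + ((k : ℝ) ^ 2 - 1) * θ * (r * l) - k * (1 - 2 * η) * (r * l) =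
        r * l * B := by
      rw [hBdef]
      ring
    linarith

end ExpPow
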