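import Pool.Agent.ExpPow.Asym

/-! From windows to counting. -/

namespace ExpPow

open Finset Filter
open scoped Nat BigOperators

/-- Block covering. -/
theorem block_count (E : ℕ → Prop) [DecidablePred E] (M L k : ℕ)
    (h : ∀ a ≥ M, ((Finset.Ico a (a + L)).filter E).card ≤ k) (j : ℕ) :
    ((Finset.Ico M (M + j * L)).filter E).card ≤ j * k := by
  induction j with
  | zero => simp
  | succ j ih =>
    have h1 : Finset.Ico M (M + (j + 1) * L) ⊆
        Finset.Ico M (M + j * L) ∪ Finset.Ico (M + j * L) (M + j * L + L) := by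
      intro x hx
      simp only [Finset.mem_Ico, Finset.mem_union] at hx ⊢
      have : (j + 1) * L = j * L + L := by ring
      omega
    calc ((Finset.Ico M (M + (j + 1) * L)).filter E).card
        ≤ ((Finset.Ico M (M + j * L) ∪ Finset.Ico (M + j * L) (M + j * L + L)).filter E).card :=
          Finset.card_le_card (Finset.filter_subset_filter _ h1)
      _ ≤ ((Finset.Ico M (M + j * L)).filter E).card +
          ((Finset.Ico (M + j * L) (M + j * L + L)).filter E).card := by
          rw [Finset.filter_union]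
          exact Finset.card_union_le _ _
      _ ≤ j * k + k := add_le_add ih (h _ (by omega))
      _ = (j + 1) * k := by ring

theorem window_card {k : ℕ} (hk : 1 ≤ k) (θ c : ℝ) (hθ : 0 ≤ θ) (hc : 0 < c)
    (h : 1 + ((k : ℝ) ^ 2 - 1) * θ < c * k * (1 - (k + 1) * θ)) :
    ∃ n₀ : ℕ, 1 ≤ n₀ ∧ ∀ n ≥ n₀, ∀ S : Finset ℕ,
      (∀ t ∈ S, n ≤ t ∧ (t : ℝ) ≤ n + (n : ℝ) ^ θ ∧
        distToNearestInt (Real.exp t) ≤ Real.exp (-(c * t))) → S.card ≤ k := by
  obtain ⟨n₀, hn1, hn₀⟩ := window_empty hk θ c hθ hc h
  refine ⟨n₀, hn1, ?_⟩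
  intro n hn S hS
  by_contra hcon
  obtain ⟨T, hTS, hT⟩ := Finset.exists_subset_card_eq (show k + 1 ≤ S.card by omega)
  have hmem : ∀ i, T.orderEmbOfFin hT i ∈ S := fun i => hTS (Finset.orderEmbOfFin_mem T hT i)
  exact hn₀ n hn (fun i => T.orderEmbOfFin hT i) (T.orderEmbOfFin hT).strictMono
    (hS _ (hmem 0)).1 (fun i => (hS _ (hmem i)).2.1) (fun i => (hS _ (hmem i)).2.2)

theorem count_bound {k : ℕ} (hk : 1 ≤ k) (θ c : ℝ) (hθ : 0 ≤ θ) (hc : 0 < c)
    (h : 1 + ((k : ℝ) ^ 2 - 1) * θ < c * k * (1 - (k + 1) * θ)) :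
    ∃ C : ℝ, ∀ N : ℕ, 1 ≤ N → ∀ S : Finset ℕ,
      (∀ t ∈ S, t ≤ N ∧ distToNearestInt (Real.exp t) ≤ Real.exp (-(c * t))) →
      (S.card : ℝ) ≤ C * (N : ℝ) ^ (1 - θ) := by
  classical
  have hk' : (1 : ℝ) ≤ k := by exact_mod_cast hk
  have hkpos : (0 : ℝ) < k := by linarith
  have hk2 : 0 ≤ (k : ℝ) ^ 2 - 1 := by nlinarith
  have hB : 0 < 1 + ((k : ℝ) ^ 2 - 1) * θ := by positivity
  have hφ : 0 < 1 - (k + 1) * θ := by
    by_contra hcon
    have : c * k * (1 - (k + 1) * θ) ≤ 0 :=
      mul_nonpos_of_nonneg_of_nonpos (by positivity) (not_lt.mp hcon)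
    linarith
  have hθ2 : θ < 1 / 2 := by nlinarith
  obtain ⟨n₀, hn1, hn₀⟩ := window_card hk θ c hθ hc h
  set E : ℕ → Prop := fun t => distToNearestInt (Real.exp t) ≤ Real.exp (-(c * t)) with hE
  set C : ℝ := max (8 * k) (2 * n₀) with hC
  have hC1 : 8 * (k : ℝ) ≤ C := le_max_left _ _
  have hC2 : 2 * (n₀ : ℝ) ≤ C := le_max_right _ _
  have hC0 : 0 < C := by linarith
  -- the main bound for the filtered ranges
  have key : ∀ N : ℕ, 1 ≤ N →
      (((Finset.range (N + 1)).filter E).card : ℝ) ≤ C * (N : ℝ) ^ (1 - θ) := by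
    intro N
    induction N using Nat.strong_induction_on with
    | _ N ih =>
      intro hN
      have hN' : (1 : ℝ) ≤ N := by exact_mod_cast hN
      have hNp : (1 : ℝ) ≤ (N : ℝ) ^ (1 - θ) := Real.one_le_rpow hN' (by linarith)
      by_cases hsmall : N < 2 * n₀
      · have h1 : ((Finset.range (N + 1)).filter E).card ≤ N + 1 := by
          refine (Finset.card_filter_le _ _).trans ?_
          simp
        have h2 : (((Finset.range (N + 1)).filter E).card : ℝ) ≤ 2 * n₀ := by
          have : ((Finset.range (N + 1)).filter E).card ≤ 2 * n₀ := by omega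
          exact_mod_cast this
        nlinarith
      · set M := N / 2 with hM
        have hMn : n₀ ≤ M := by omega
        have hM1 : 1 ≤ M := by omega
        have hMN : M < N := by omega
        have hM' : (1 : ℝ) ≤ M := by exact_mod_cast hM1
        have hMpos : (0 : ℝ) < M := by linarith
        have ihM := ih M hMN hM1
        set L := ⌊(M : ℝ) ^ θ⌋₊ + 1 with hL
        have hPpos : 0 < (M : ℝ) ^ θ := by positivity
        have hLM : (M : ℝ) ^ θ ≤ L := by
          rw [hL]
          push_cast
          exact (Nat.lt_floor_add_one _).le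
        have hLpos : (0 : ℝ) < L := by linarith
        have hLpos' : 0 < L := by omega
        have hblock : ∀ a ≥ M, ((Finset.Ico a (a + L)).filter E).card ≤ k := by
          intro a ha
          apply hn₀ a (hMn.trans ha)
          intro t ht
          simp only [Finset.mem_filter, Finset.mem_Ico] at ht
          obtain ⟨⟨h1, h2⟩, h3⟩ := ht
          refine ⟨h1, ?_, h3⟩
          have h4 : t ≤ a + ⌊(M : ℝ) ^ θ⌋₊ := by omega
          have h5 : (t : ℝ) ≤ a + (⌊(M : ℝ) ^ θ⌋₊ : ℝ) := by exact_mod_cast h4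
          have h6 : (⌊(M : ℝ) ^ θ⌋₊ : ℝ) ≤ (M : ℝ) ^ θ := Nat.floor_le hPpos.le
          have h7 : (M : ℝ) ^ θ ≤ (a : ℝ) ^ θ :=
            Real.rpow_le_rpow hMpos.le (by exact_mod_cast ha) hθ
          linarith
        set j := (N - M) / L + 1 with hj
        have hcov := block_count E M L k hblock j
        have hjL : N < M + j * L := by
          have h1 : N - M < ((N - M) / L + 1) * L := by
            have := Nat.lt_div_mul_add (a := N - M) hLpos'
            calc N - M < (N - M) / L * L + L := this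
              _ = ((N - M) / L + 1) * L := by ring
          rw [← hj] at h1
          omega
        have hsub : (Finset.range (N + 1)).filter E ⊆
            (Finset.range (M + 1)).filter E ∪ (Finset.Ico M (M + j * L)).filter E := by
          intro x hx
          simp only [Finset.mem_filter, Finset.mem_union, Finset.mem_range, Finset.mem_Ico]
            at hx ⊢
          obtain ⟨h1, h2⟩ := hx
          by_cases h3 : x < M + 1
          · exact Or.inl ⟨h3, h2⟩
          · exact Or.inr ⟨⟨by omega, by omega⟩, h2⟩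
        have hcard : ((Finset.range (N + 1)).filter E).card ≤
            ((Finset.range (M + 1)).filter E).card + j * k := by
          refine (Finset.card_le_card hsub).trans ((Finset.card_union_le _ _).trans ?_)
          omega
        have hcard' : (((Finset.range (N + 1)).filter E).card : ℝ) ≤
            (((Finset.range (M + 1)).filter E).card : ℝ) + j * k := by exact_mod_cast hcard
        -- size of `j`
        have hjr : (j : ℝ) ≤ 3 * (M : ℝ) ^ (1 - θ) := by
          have h1 : (((N - M) / L : ℕ) : ℝ) ≤ ((N - M : ℕ) : ℝ) / L := Nat.cast_div_le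
          have h2 : ((N - M : ℕ) : ℝ) ≤ 2 * M := by
            have : N - M ≤ 2 * M := by omega
            exact_mod_cast this
          have h3 : ((N - M : ℕ) : ℝ) / L ≤ 2 * M / (M : ℝ) ^ θ := by gcongr
          have h4 : 2 * (M : ℝ) / (M : ℝ) ^ θ = 2 * (M : ℝ) ^ (1 - θ) := by
            rw [Real.rpow_sub hMpos, Real.rpow_one]
            ring
          have h5 : (1 : ℝ) ≤ (M : ℝ) ^ (1 - θ) := Real.one_le_rpow hM' (by linarith)
          rw [hj]
          push_cast
          linarith
        have hMN2 : (M : ℝ) ^ (1 - θ) ≤ 5 / 7 * (N : ℝ) ^ (1 - θ) := by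
          have h1 : (M : ℝ) ≤ N / 2 := by
            have : 2 * M ≤ N := by omega
            have : (2 : ℝ) * M ≤ N := by exact_mod_cast this
            linarith
          have h2 : (M : ℝ) ^ (1 - θ) ≤ ((N : ℝ) / 2) ^ (1 - θ) :=
            Real.rpow_le_rpow hMpos.le h1 (by linarith)
          have h3 : ((N : ℝ) / 2) ^ (1 - θ) = (N : ℝ) ^ (1 - θ) / 2 ^ (1 - θ) :=
            Real.div_rpow (by linarith) (by norm_num) _
          have h4 : (7 / 5 : ℝ) ≤ 2 ^ (1 - θ) := by
            have h5 : (2 : ℝ) ^ ((1 : ℝ) / 2) ≤ 2 ^ (1 - θ) :=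
              Real.rpow_le_rpow_of_exponent_le (by norm_num) (by linarith)
            have h6 : (7 / 5 : ℝ) ≤ (2 : ℝ) ^ ((1 : ℝ) / 2) := by
              rw [← Real.sqrt_eq_rpow]
              apply Real.le_sqrt_of_sq_le
              norm_num
            linarith
          rw [h3] at h2
          refine h2.trans ?_
          rw [div_le_iff₀ (by linarith)]
          nlinarith
        have h10 : (((Finset.range (N + 1)).filter E).card : ℝ) ≤
            (C + 3 * k) * (M : ℝ) ^ (1 - θ) := by
          have := mul_le_mul_of_nonneg_right hjr hkpos.le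
          linarith
        have h11 : (C + 3 * k) * (M : ℝ) ^ (1 - θ) ≤
            (C + 3 * k) * (5 / 7 * (N : ℝ) ^ (1 - θ)) :=
          mul_le_mul_of_nonneg_left hMN2 (by positivity)
        have h12 : (C + 3 * k) * (5 / 7) * (N : ℝ) ^ (1 - θ) ≤ C * (N : ℝ) ^ (1 - θ) :=
          mul_le_mul_of_nonneg_right (by linarith) (by linarith)
        linarith
  refine ⟨C, ?_⟩
  intro N hN S hS
  refine le_trans ?_ (key N hN)
  have : S ⊆ (Finset.range (N + 1)).filter E := by
    intro x hx
    simp only [Finset.mem_filter, Finset.mem_range]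
    exact ⟨by have := (hS x hx).1; omega, (hS x hx).2⟩
  exact_mod_cast Finset.card_le_card this

end ExpPow
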