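import Pool.Agent.ExpPow.Approx

/-! Determinant inequality. -/

namespace ExpPow

open Finset Matrix
open scoped Nat BigOperators

theorem exists_updateRow_det_ne_zero {k : ℕ} (G : Matrix (Fin (k + 1)) (Fin (k + 1)) ℤ)
    (hdet : G.det ≠ 0) (a : Fin (k + 1) → ℤ) (ha : a ≠ 0) :
    ∃ j, (G.updateRow j a).det ≠ 0 := by
  by_contra hcon
  push Not at hcon
  apply ha
  have h1 : Matrix.cramer Gᵀ a = 0 := by
    funext j
    rw [Matrix.cramer_transpose_apply]
    exact hcon j
  have h2 := Matrix.mulVec_cramer Gᵀ a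
  rw [h1, Matrix.mulVec_zero, Matrix.det_transpose] at h2
  funext i
  have h3 := congrFun h2 i
  simp only [Pi.zero_apply, Pi.smul_apply, smul_eq_mul] at h3
  exact (mul_eq_zero.mp h3.symm).resolve_left hdet

theorem abs_det_le {k : ℕ} (M : Matrix (Fin (k + 1)) (Fin (k + 1)) ℝ)
    (α β : Fin (k + 1) → ℝ) (h : ∀ i j, |M i j| ≤ α i * β j) :
    |M.det| ≤ ((k + 1)! : ℝ) * ((∏ i, α i) * ∏ j, β j) := by
  rw [Matrix.det_apply]
  refine (Finset.abs_sum_le_sum_abs _ _).trans ?_
  have hterm : ∀ σ ∈ (univ : Finset (Equiv.Perm (Fin (k + 1)))),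
      |Equiv.Perm.sign σ • ∏ i, M (σ i) i| ≤ (∏ i, α i) * ∏ j, β j := by
    intro σ _
    have h1 : |Equiv.Perm.sign σ • ∏ i, M (σ i) i| = |∏ i, M (σ i) i| := by
      rcases Int.units_eq_one_or (Equiv.Perm.sign σ) with hs | hs
      · rw [hs, one_smul]
      · rw [hs, Units.neg_smul, one_smul, abs_neg]
    rw [h1, Finset.abs_prod]
    calc ∏ i, |M (σ i) i| ≤ ∏ i, (α (σ i) * β i) :=
          Finset.prod_le_prod (fun i _ => abs_nonneg _) (fun i _ => h (σ i) i)
      _ = (∏ i, α (σ i)) * ∏ i, β i := Finset.prod_mul_distrib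
      _ = _ := by rw [Equiv.prod_comp σ α]
  refine (Finset.sum_le_card_nsmul _ _ _ hterm).trans ?_
  rw [Finset.card_univ, Fintype.card_perm, Fintype.card_fin, nsmul_eq_mul]

theorem det_ineq {k : ℕ} (hk : 1 ≤ k) (w : Fin (k + 1) → ℝ)
    (G : Matrix (Fin (k + 1)) (Fin (k + 1)) ℤ) (hdet : G.det ≠ 0)
    (a : Fin (k + 1) → ℤ) (ha : a ≠ 0) (Q ε A δ : ℝ) (hQ : 0 < Q) (hε : 0 < ε)
    (hG0 : ∀ j, |(G j 0 : ℝ)| ≤ Q) (hGi : ∀ j i, |w i * G j 0 - G j i| ≤ ε)
    (ha0 : |(a 0 : ℝ)| ≤ A) (hai : ∀ i, |w i * a 0 - a i| ≤ δ) :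
    1 ≤ ((k + 1)! : ℝ) * (A * ε ^ k) ∨ 1 ≤ ((k + 1)! : ℝ) * (δ * Q * ε ^ (k - 1)) := by
  obtain ⟨j₀, hj₀⟩ := exists_updateRow_det_ne_zero G hdet a ha
  set M : Matrix (Fin (k + 1)) (Fin (k + 1)) ℝ :=
    (G.updateRow j₀ a).map (Int.cast : ℤ → ℝ) with hM
  have hMdet : (1 : ℝ) ≤ |M.det| := by
    have h1 : M.det = (((G.updateRow j₀ a).det : ℤ) : ℝ) := by
      rw [hM]
      exact (Int.cast_det _).symm
    rw [h1, ← Int.cast_abs]
    exact_mod_cast Int.one_le_abs hj₀
  set c : Fin (k + 1) → ℝ := fun i => if i = 0 then 0 else w i with hc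
  set M' : Matrix (Fin (k + 1)) (Fin (k + 1)) ℝ :=
    Matrix.of (fun j i => M j i - c i * M j 0) with hM'
  have hc0 : c 0 = 0 := by simp [hc]
  have hdet' : M.det = M'.det := by
    rw [← Matrix.det_transpose M, ← Matrix.det_transpose M']
    apply Matrix.det_eq_of_forall_row_eq_smul_add_const c 0 hc0
    intro i j
    simp only [Matrix.transpose_apply, hM', Matrix.of_apply, hc0]
    ring
  set t : ℝ := max (A / Q) (δ / ε) with ht
  have hbound : ∀ j i, |M' j i| ≤ (if j = j₀ then t else 1) * (if i = 0 then Q else ε) := by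
    intro j i
    simp only [hM', Matrix.of_apply]
    by_cases hj : j = j₀
    · subst hj
      simp only [if_true]
      have hMj : ∀ i, M j i = a i := by
        intro i
        rw [hM, Matrix.map_apply, Matrix.updateRow_self]
      rw [hMj, hMj]
      by_cases hi : i = 0
      · subst hi
        rw [hc0]
        simp only [if_true, zero_mul, sub_zero]
        calc |(a 0 : ℝ)| ≤ A := ha0
          _ = A / Q * Q := by field_simp
          _ ≤ t * Q := mul_le_mul_of_nonneg_right (le_max_left _ _) hQ.le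
      · rw [if_neg hi]
        have : c i = w i := by simp [hc, hi]
        rw [this, abs_sub_comm]
        calc |w i * (a 0 : ℝ) - a i| ≤ δ := hai i
          _ = δ / ε * ε := by field_simp
          _ ≤ t * ε := mul_le_mul_of_nonneg_right (le_max_right _ _) hε.le
    · rw [if_neg hj, one_mul]
      have hMj : ∀ i, M j i = G j i := by
        intro i
        rw [hM, Matrix.map_apply, Matrix.updateRow_ne hj]
      rw [hMj, hMj]
      by_cases hi : i = 0
      · subst hi
        rw [hc0]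
        simp only [if_true, zero_mul, sub_zero]
        exact hG0 j
      · rw [if_neg hi]
        have : c i = w i := by simp [hc, hi]
        rw [this, abs_sub_comm]
        exact hGi j i
  have hfin := abs_det_le M' (fun j => if j = j₀ then t else 1) (fun i => if i = 0 then Q else ε)
    hbound
  have hp1 : ∏ j : Fin (k + 1), (if j = j₀ then t else (1 : ℝ)) = t := by
    rw [Finset.prod_ite_eq' univ j₀ (fun _ => t)]
    simp
  have hp2 : ∏ i : Fin (k + 1), (if i = 0 then Q else ε) = Q * ε ^ k := by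
    rw [Fin.prod_univ_succ]
    simp
  rw [hp1, hp2] at hfin
  rw [hdet'] at hMdet
  have hall := hMdet.trans hfin
  rcases max_cases (A / Q) (δ / ε) with ⟨h1, _⟩ | ⟨h1, _⟩
  · left
    rw [ht, h1] at hall
    calc (1 : ℝ) ≤ ((k + 1)! : ℝ) * (A / Q * (Q * ε ^ k)) := hall
      _ = ((k + 1)! : ℝ) * (A * ε ^ k) := by field_simp
  · right
    rw [ht, h1] at hall
    obtain ⟨k', rfl⟩ : ∃ k', k = k' + 1 := ⟨k - 1, by omega⟩
    calc (1 : ℝ) ≤ ((k' + 1 + 1)! : ℝ) * (δ / ε * (Q * ε ^ (k' + 1))) := hall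
      _ = ((k' + 1 + 1)! : ℝ) * (δ * Q * ε ^ (k' + 1 - 1)) := by
          rw [Nat.add_sub_cancel, pow_succ]
          field_simp

end ExpPow
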