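import Mathlib

/-! Hermite type II approximants to exponentials at natural numbers:
integer matrix, divisibility and size estimates. -/

namespace ExpPow

open Polynomial Finset
open scoped Nat BigOperators

/-- The Hermite polynomial attached to the nodes `μ`, multiplicity `r` and index `j`. -/
noncomputable def hf {k : ℕ} (μ : Fin (k + 1) → ℕ) (r : ℕ) (j : Fin (k + 1)) : ℤ[X] :=
  (X - C (μ j : ℤ)) ^ (r - 1) * ∏ l ∈ univ.erase j, (X - C (μ l : ℤ)) ^ r

/-- A functional bounding the value at zero of the sum of derivatives. -/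
noncomputable def nf (d : ℕ) (f : ℤ[X]) : ℤ := ∑ l ∈ range (d + 1), (l ! : ℤ) * |f.coeff l|

theorem nf_nonneg (d : ℕ) (f : ℤ[X]) : 0 ≤ nf d f :=
  Finset.sum_nonneg fun l _ => by positivity

theorem nf_mul_X_sub_C (d : ℕ) (f : ℤ[X]) (a : ℕ) (hf : f.natDegree ≤ d) :
    nf (d + 1) ((X - C (a : ℤ)) * f) ≤ (d + 1 + a) * nf d f := by
  have h1 : ∀ l, |((X - C (a : ℤ)) * f).coeff l| ≤
      (if l = 0 then 0 else |f.coeff (l - 1)|) + a * |f.coeff l| := by
    intro l
    rw [sub_mul, coeff_sub, coeff_C_mul]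
    rcases l with _ | l
    · simp only [coeff_X_mul_zero, zero_sub, abs_neg, abs_mul, if_true, zero_add]
      rw [abs_of_nonneg (by positivity : (0:ℤ) ≤ (a:ℤ))]
    · rw [coeff_X_mul]
      simp only [Nat.succ_ne_zero, if_false, Nat.add_sub_cancel]
      calc |f.coeff l - a * f.coeff (l + 1)| ≤ |f.coeff l| + |a * f.coeff (l + 1)| := abs_sub _ _
        _ = _ := by rw [abs_mul, abs_of_nonneg (by positivity : (0:ℤ) ≤ (a:ℤ))]
  have h2 : nf (d + 1) ((X - C (a : ℤ)) * f) ≤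
      ∑ l ∈ range (d + 1 + 1), (l ! : ℤ) *
        ((if l = 0 then 0 else |f.coeff (l - 1)|) + a * |f.coeff l|) := by
    unfold nf
    apply Finset.sum_le_sum
    intro l _
    exact mul_le_mul_of_nonneg_left (h1 l) (by positivity)
  refine h2.trans ?_
  have hsplit : ∑ l ∈ range (d + 1 + 1), (l ! : ℤ) *
        ((if l = 0 then 0 else |f.coeff (l - 1)|) + a * |f.coeff l|) =
      (∑ l ∈ range (d + 1 + 1), (l ! : ℤ) * (if l = 0 then 0 else |f.coeff (l - 1)|)) +
      ∑ l ∈ range (d + 1 + 1), (l ! : ℤ) * (a * |f.coeff l|) := by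
    rw [← Finset.sum_add_distrib]
    apply Finset.sum_congr rfl
    intro l _
    ring
  rw [hsplit]
  have hA : (∑ l ∈ range (d + 1 + 1), (l ! : ℤ) * (if l = 0 then 0 else |f.coeff (l - 1)|)) ≤
      (d + 1) * nf d f := by
    rw [Finset.sum_range_succ']
    simp only [if_true, mul_zero, add_zero, Nat.succ_ne_zero, if_false, Nat.add_sub_cancel]
    unfold nf
    rw [Finset.mul_sum]
    apply Finset.sum_le_sum
    intro l hl
    rw [Finset.mem_range] at hl
    rw [Nat.factorial_succ]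
    push_cast
    have : (l : ℤ) + 1 ≤ d + 1 := by
      have : l ≤ d := by omega
      have : (l : ℤ) ≤ d := by exact_mod_cast this
      linarith
    have h0 : (0 : ℤ) ≤ (l ! : ℤ) * |f.coeff l| := by positivity
    nlinarith
  have hB : ∑ l ∈ range (d + 1 + 1), (l ! : ℤ) * (a * |f.coeff l|) = a * nf d f := by
    rw [Finset.sum_range_succ]
    have : f.coeff (d + 1) = 0 := coeff_eq_zero_of_natDegree_lt (by omega)
    rw [this]
    simp only [abs_zero, mul_zero, add_zero]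
    unfold nf
    rw [Finset.mul_sum]
    apply Finset.sum_congr rfl
    intro l _
    ring
  rw [hB]
  nlinarith [nf_nonneg d f]

theorem eval_zero_sumIDeriv (f : ℤ[X]) (d : ℕ) (hf : f.natDegree ≤ d) :
    |eval 0 (sumIDeriv f)| ≤ nf d f := by
  rw [sumIDeriv_apply_of_le hf, eval_finsetSum]
  unfold nf
  refine (Finset.abs_sum_le_sum_abs _ _).trans ?_
  apply Finset.sum_le_sum
  intro l _
  rw [← coeff_zero_eq_eval_zero, coeff_iterate_derivative, zero_add, Nat.descFactorial_self,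
    nsmul_eq_mul, abs_mul, Nat.abs_cast]

theorem natDegree_pow_mul_le (d e : ℕ) (f : ℤ[X]) (a : ℕ) (hf : f.natDegree ≤ d) :
    ((X - C (a : ℤ)) ^ e * f).natDegree ≤ d + e := by
  refine natDegree_mul_le.trans ?_
  have : ((X - C (a : ℤ)) ^ e).natDegree ≤ e := by
    refine natDegree_pow_le.trans ?_
    rw [natDegree_X_sub_C, mul_one]
  omega

theorem nf_pow_mul (d e m : ℕ) (f : ℤ[X]) (a : ℕ) (ha : a ≤ m) (hf : f.natDegree ≤ d) :
    nf (d + e) ((X - C (a : ℤ)) ^ e * f) * ((d + m) ! : ℤ) ≤ ((d + e + m) ! : ℤ) * nf d f := by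
  induction e with
  | zero => simp [mul_comm]
  | succ e ih =>
    have h1 := nf_mul_X_sub_C (d + e) ((X - C (a : ℤ)) ^ e * f) a
      (natDegree_pow_mul_le d e f a hf)
    have h2 : (X - C (a : ℤ)) * ((X - C (a : ℤ)) ^ e * f) = (X - C (a : ℤ)) ^ (e + 1) * f := by
      ring
    rw [h2] at h1
    have h3 : ((d + e + 1 + m) ! : ℤ) = (d + e + 1 + m) * ((d + e + m) ! : ℤ) := by
      have : d + e + 1 + m = (d + e + m) + 1 := by ring
      rw [this, Nat.factorial_succ]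
      push_cast
      ring
    rw [← add_assoc, h3]
    have h4 : ((d + e : ℕ) : ℤ) + 1 + a ≤ d + e + 1 + m := by
      have : (a : ℤ) ≤ m := by exact_mod_cast ha
      push_cast
      linarith
    have h5 := nf_nonneg (d + e) ((X - C (a : ℤ)) ^ e * f)
    have h6 : nf (d + e + 1) ((X - C (a : ℤ)) ^ (e + 1) * f) ≤
        (d + e + 1 + m) * nf (d + e) ((X - C (a : ℤ)) ^ e * f) :=
      h1.trans (mul_le_mul_of_nonneg_right h4 h5)
    have h7 : (0 : ℤ) ≤ ((d + m) ! : ℤ) := by positivity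
    calc nf (d + e + 1) ((X - C (a : ℤ)) ^ (e + 1) * f) * ((d + m) ! : ℤ)
        ≤ ((d + e + 1 + m) * nf (d + e) ((X - C (a : ℤ)) ^ e * f)) * ((d + m) ! : ℤ) :=
          mul_le_mul_of_nonneg_right h6 h7
      _ = (d + e + 1 + m) * (nf (d + e) ((X - C (a : ℤ)) ^ e * f) * ((d + m) ! : ℤ)) := by ring
      _ ≤ (d + e + 1 + m) * (((d + e + m) ! : ℤ) * nf d f) :=
          mul_le_mul_of_nonneg_left ih (by positivity)
      _ = _ := by ring

theorem natDegree_prod_le' {k : ℕ} (μ : Fin (k + 1) → ℕ) (r : ℕ) (s : Finset (Fin (k + 1))) :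
    (∏ l ∈ s, (X - C (μ l : ℤ)) ^ r).natDegree ≤ r * s.card := by
  induction s using Finset.induction_on with
  | empty => simp
  | insert a s ha ih =>
    rw [Finset.prod_insert ha, Finset.card_insert_of_notMem ha]
    have := natDegree_pow_mul_le (r * s.card) r _ (μ a) ih
    rw [mul_add, mul_one]
    exact this

theorem nf_prod {k : ℕ} (μ : Fin (k + 1) → ℕ) (m r : ℕ) (hμ : ∀ l, μ l ≤ m)
    (s : Finset (Fin (k + 1))) :
    nf (r * s.card) (∏ l ∈ s, (X - C (μ l : ℤ)) ^ r) * (m ! : ℤ) ≤ ((r * s.card + m) ! : ℤ) := by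
  induction s using Finset.induction_on with
  | empty => simp [nf]
  | insert a s ha ih =>
    rw [Finset.prod_insert ha, Finset.card_insert_of_notMem ha]
    have h1 := nf_pow_mul (r * s.card) r m _ (μ a) (hμ a) (natDegree_prod_le' μ r s)
    rw [mul_add, mul_one]
    have h2 : (0 : ℤ) < ((r * s.card + m) ! : ℤ) := by positivity
    have h3 : (0 : ℤ) ≤ (m ! : ℤ) := by positivity
    have h4 : (0 : ℤ) ≤ ((r * s.card + r + m) ! : ℤ) := by positivity
    have h5 := mul_le_mul_of_nonneg_right h1 h3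
    have h6 := mul_le_mul_of_nonneg_left ih h4
    have h7 : nf (r * s.card + r) ((X - C (μ a : ℤ)) ^ r * ∏ l ∈ s, (X - C (μ l : ℤ)) ^ r) *
        (m ! : ℤ) * ((r * s.card + m) ! : ℤ) ≤
        ((r * s.card + r + m) ! : ℤ) * ((r * s.card + m) ! : ℤ) := by
      calc _ = nf (r * s.card + r) ((X - C (μ a : ℤ)) ^ r * ∏ l ∈ s, (X - C (μ l : ℤ)) ^ r) *
        ((r * s.card + m) ! : ℤ) * (m ! : ℤ) := by ring
        _ ≤ _ := h5
        _ = ((r * s.card + r + m) ! : ℤ) * (nf (r * s.card) (∏ l ∈ s, (X - C (μ l : ℤ)) ^ r) *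
          (m ! : ℤ)) := by ring
        _ ≤ _ := h6
    exact le_of_mul_le_mul_right h7 h2

theorem natDegree_hf {k : ℕ} (μ : Fin (k + 1) → ℕ) (r : ℕ) (j : Fin (k + 1)) :
    (hf μ r j).natDegree ≤ r * k + (r - 1) := by
  unfold hf
  have h := natDegree_prod_le' μ r (univ.erase j)
  rw [Finset.card_erase_of_mem (mem_univ _), Finset.card_univ, Fintype.card_fin,
    Nat.add_sub_cancel] at h
  exact natDegree_pow_mul_le (r * k) (r - 1) _ (μ j) h

theorem nf_hf {k : ℕ} (μ : Fin (k + 1) → ℕ) (m r : ℕ) (hμ : ∀ l, μ l ≤ m) (j : Fin (k + 1)) :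
    nf (r * k + (r - 1)) (hf μ r j) ≤ ((r * k + (r - 1) + m) ! : ℤ) := by
  unfold hf
  have h := natDegree_prod_le' μ r (univ.erase j)
  have h0 := nf_prod μ m r hμ (univ.erase j)
  rw [Finset.card_erase_of_mem (mem_univ _), Finset.card_univ, Fintype.card_fin,
    Nat.add_sub_cancel] at h h0
  have h1 := nf_pow_mul (r * k) (r - 1) m _ (μ j) (hμ j) h
  have h2 : (0 : ℤ) < ((r * k + m) ! : ℤ) := by positivity
  have h3 : (1 : ℤ) ≤ (m ! : ℤ) := by exact_mod_cast Nat.factorial_pos m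
  have h4 : nf (r * k) (∏ l ∈ univ.erase j, (X - C (μ l : ℤ)) ^ r) ≤ ((r * k + m) ! : ℤ) := by
    have := nf_nonneg (r * k) (∏ l ∈ univ.erase j, (X - C (μ l : ℤ)) ^ r)
    nlinarith
  have h5 : (0 : ℤ) ≤ ((r * k + (r - 1) + m) ! : ℤ) := by positivity
  have h6 := h1.trans (mul_le_mul_of_nonneg_left h4 h5)
  exact le_of_mul_le_mul_right h6 h2

theorem abs_eval_zero_hf {k : ℕ} (μ : Fin (k + 1) → ℕ) (m r : ℕ) (hμ : ∀ l, μ l ≤ m)
    (j : Fin (k + 1)) :
    |eval 0 (sumIDeriv (hf μ r j))| ≤ ((r * k + (r - 1) + m) ! : ℤ) :=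
  (eval_zero_sumIDeriv _ _ (natDegree_hf μ r j)).trans (nf_hf μ m r hμ j)

/-- Off-diagonal values are divisible by `r !`. -/
theorem dvd_eval_hf_of_ne {k : ℕ} (μ : Fin (k + 1) → ℕ) (r : ℕ) (j i : Fin (k + 1))
    (hij : i ≠ j) : (r ! : ℤ) ∣ eval (μ i : ℤ) (sumIDeriv (hf μ r j)) := by
  obtain ⟨gp, -, h⟩ := aeval_sumIDeriv ℤ (hf μ r j) r
  have h2 : (X - C (μ i : ℤ)) ^ r ∣ (hf μ r j).map (algebraMap ℤ ℤ) := by
    rw [Algebra.algebraMap_self, Polynomial.map_id]
    unfold hf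
    apply Dvd.dvd.mul_left
    exact Finset.dvd_prod_of_mem (fun l => (X - C (μ l : ℤ)) ^ r)
      (Finset.mem_erase.mpr ⟨hij, mem_univ _⟩)
  have h3 := h (μ i : ℤ) h2
  rw [aeval_def, eval₂_eq_eval_map, Algebra.algebraMap_self, Polynomial.map_id] at h3
  rw [h3, nsmul_eq_mul]
  exact Dvd.intro _ rfl

/-- Diagonal values. -/
theorem eval_hf_self {k : ℕ} (μ : Fin (k + 1) → ℕ) (r : ℕ) (hr : 0 < r) (j : Fin (k + 1)) :
    ∃ z : ℤ, eval (μ j : ℤ) (sumIDeriv (hf μ r j)) =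
      ((r - 1)! : ℤ) * ((∏ l ∈ univ.erase j, ((μ j : ℤ) - μ l) ^ r) + r * z) := by
  obtain ⟨gp, -, h⟩ := eval_sumIDeriv_of_pos (hf μ r j) hr
  have h2 := h (μ j : ℤ) (p' := ∏ l ∈ univ.erase j, (X - C (μ l : ℤ)) ^ r) rfl
  refine ⟨eval (μ j : ℤ) gp, ?_⟩
  rw [h2, eval_prod]
  simp only [eval_pow, eval_sub, eval_X, eval_C, nsmul_eq_mul]
  have : (r ! : ℤ) = r * ((r - 1)! : ℤ) := by
    exact_mod_cast (Nat.mul_factorial_pred hr.ne').symm
  rw [this]
  ring

/-- The integer Hermite matrix. -/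
theorem exists_hermite_matrix {k : ℕ} (μ : Fin (k + 1) → ℕ) (hinj : Function.Injective μ)
    (m : ℕ) (hμ : ∀ l, μ l ≤ m) (r p : ℕ) (hr : 0 < r) (hp : p.Prime) (hpm : m < p)
    (hpr : p ∣ r) :
    ∃ G : Matrix (Fin (k + 1)) (Fin (k + 1)) ℤ, G.det ≠ 0 ∧
      ∀ j i, eval (μ i : ℤ) (sumIDeriv (hf μ r j)) = ((r - 1)! : ℤ) * G j i := by
  have hex : ∀ j i, ∃ g : ℤ, eval (μ i : ℤ) (sumIDeriv (hf μ r j)) = ((r - 1)! : ℤ) * g ∧
      (i ≠ j → (p : ℤ) ∣ g) ∧ (i = j → ¬ (p : ℤ) ∣ g) := by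
    intro j i
    have hpr' : (p : ℤ) ∣ (r : ℤ) := by exact_mod_cast hpr
    by_cases hij : i = j
    · subst hij
      obtain ⟨z, hz⟩ := eval_hf_self μ r hr i
      refine ⟨_, hz, fun h => (h rfl).elim, fun _ hdvd => ?_⟩
      have h1 : (p : ℤ) ∣ ∏ l ∈ univ.erase i, ((μ i : ℤ) - μ l) ^ r :=
        (Int.dvd_iff_dvd_of_dvd_add
          (hdvd.trans (dvd_refl _))).mpr (hpr'.mul_right z)
      have hp' : Prime (p : ℤ) := Nat.prime_iff_prime_int.mp hp
      obtain ⟨l, hl, hl2⟩ := (hp'.dvd_finsetProd_iff _).mp h1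
      have h3 := hp'.dvd_of_dvd_pow hl2
      have hne : μ i ≠ μ l := fun h => (Finset.mem_erase.mp hl).1 (hinj h).symm
      have h4 : |(μ i : ℤ) - μ l| < p := by
        have a1 := hμ i
        have a2 := hμ l
        rw [abs_lt]
        constructor <;> omega
      have h5 := Int.eq_zero_of_abs_lt_dvd h3 h4
      exact hne (by omega)
    · obtain ⟨z, hz⟩ := dvd_eval_hf_of_ne μ r j i hij
      refine ⟨r * z, ?_, fun _ => hpr'.mul_right z, fun h => (hij h).elim⟩
      rw [hz]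
      have : (r ! : ℤ) = r * ((r - 1)! : ℤ) := by
        exact_mod_cast (Nat.mul_factorial_pred hr.ne').symm
      rw [this]
      ring
  choose g h1 h2 h3 using hex
  refine ⟨Matrix.of g, ?_, h1⟩
  have : Fact p.Prime := ⟨hp⟩
  intro hdet
  have h4 : ((Matrix.of g).map (Int.castRingHom (ZMod p))).det = 0 := by
    have := RingHom.map_det (Int.castRingHom (ZMod p)) (Matrix.of g)
    rw [hdet, map_zero] at this
    exact this.symm
  have h5 : (Matrix.of g).map (Int.castRingHom (ZMod p)) =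
      Matrix.diagonal (fun j => ((g j j : ℤ) : ZMod p)) := by
    ext j i
    by_cases hij : i = j
    · subst hij
      simp
    · rw [Matrix.diagonal_apply_ne _ (fun h => hij h.symm)]
      simp only [Matrix.map_apply, Matrix.of_apply, eq_intCast]
      exact (ZMod.intCast_zmod_eq_zero_iff_dvd _ _).mpr (h2 j i hij)
  rw [h5, Matrix.det_diagonal, Finset.prod_eq_zero_iff] at h4
  obtain ⟨j, _, hj⟩ := h4
  exact h3 j j rfl ((ZMod.intCast_zmod_eq_zero_iff_dvd _ _).mp hj)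

end ExpPow
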