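import Pool.Agent.ExpPow.Det
import Pool.Prelude.Def_H_9f781f72

/-! The explicit window inequality. -/

namespace ExpPow

open Finset
open scoped Nat BigOperators

theorem window_ineq {k : ℕ} (hk : 1 ≤ k) (t : Fin (k + 1) → ℕ) (ht : StrictMono t) (m : ℕ)
    (hm : 1 ≤ m) (hspan : ∀ i, t i ≤ t 0 + m) (r p : ℕ) (hr : 0 < r) (hp : p.Prime)
    (hpm : m < p) (hpr : p ∣ r) (δ : ℝ)
    (hδ : ∀ i, distToNearestInt (Real.exp (t i)) ≤ δ) :
    1 ≤ ((k + 1)! : ℝ) * ((Real.exp (t 0) + 1) *
        (Real.exp m * (m : ℝ) ^ (r * (k + 1)) / ((r - 1)! : ℝ)) ^ k) ∨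
    1 ≤ ((k + 1)! : ℝ) * (((1 + Real.exp m) * δ) *
        (((r * (k + 1) + m) ! : ℝ) / ((r - 1)! : ℝ)) *
        (Real.exp m * (m : ℝ) ^ (r * (k + 1)) / ((r - 1)! : ℝ)) ^ (k - 1)) := by
  set μ : Fin (k + 1) → ℕ := fun i => t i - t 0 with hμdef
  have hle : ∀ i, t 0 ≤ t i := fun i => ht.monotone (Fin.zero_le i)
  have hμ0 : μ 0 = 0 := by simp [hμdef]
  have hinj : Function.Injective μ := by
    intro i j hij
    simp only [hμdef] at hij
    have h1 := hle i
    have h2 := hle j
    exact ht.injective (by omega)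
  have hμm : ∀ i, μ i ≤ m := by
    intro i
    have := hspan i
    simp only [hμdef]
    omega
  obtain ⟨G, hdet, hG⟩ := exists_hermite_matrix μ hinj m hμm r p hr hp hpm hpr
  set a : Fin (k + 1) → ℤ := fun i => round (Real.exp (t i)) with ha
  have ha0 : 1 ≤ a 0 := by
    have h1 : (1 : ℝ) ≤ Real.exp (t 0) := Real.one_le_exp (by positivity)
    have h2 : |Real.exp (t 0) - round (Real.exp (t 0))| ≤ 1 / 2 := abs_sub_round _
    rw [abs_le] at h2
    have h3 : (0 : ℝ) < (round (Real.exp (t 0)) : ℝ) := by linarith [h2.2]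
    have h4 : 0 < round (Real.exp (t 0)) := by exact_mod_cast h3
    exact h4
  have hane : a ≠ 0 := by
    intro h
    have := congrFun h 0
    simp only [Pi.zero_apply] at this
    omega
  have hm' : (0 : ℝ) < m := by exact_mod_cast hm
  have hQ : (0 : ℝ) < ((r * (k + 1) + m) ! : ℝ) / ((r - 1)! : ℝ) := by positivity
  have hε : (0 : ℝ) < Real.exp m * (m : ℝ) ^ (r * (k + 1)) / ((r - 1)! : ℝ) := by positivity
  have hA : |(a 0 : ℝ)| ≤ Real.exp (t 0) + 1 := by
    have h2 : |Real.exp (t 0) - round (Real.exp (t 0))| ≤ 1 / 2 := abs_sub_round _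
    rw [abs_le] at h2
    have h5 : (1 : ℝ) ≤ (a 0 : ℝ) := by exact_mod_cast ha0
    rw [abs_of_pos (by linarith)]
    show (round (Real.exp (t 0)) : ℝ) ≤ _
    linarith [h2.1]
  have hai : ∀ i, |Real.exp (μ i) * a 0 - a i| ≤ (1 + Real.exp m) * δ := by
    intro i
    have h1 := hδ i
    have h2 := hδ 0
    unfold distToNearestInt at h1 h2
    have h3 : Real.exp (t i) = Real.exp (μ i) * Real.exp (t 0) := by
      rw [← Real.exp_add]
      congr 1
      have : t i = μ i + t 0 := by
        have := hle i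
        simp only [hμdef]
        omega
      exact_mod_cast this
    have h4 : Real.exp (μ i) * a 0 - a i =
        -(Real.exp (μ i) * (Real.exp (t 0) - a 0)) + (Real.exp (t i) - a i) := by
      rw [h3]
      ring
    rw [h4]
    refine (abs_add_le _ _).trans ?_
    rw [abs_neg, abs_mul, abs_of_pos (Real.exp_pos _)]
    have h5 : Real.exp (μ i) ≤ Real.exp m := Real.exp_le_exp.mpr (by exact_mod_cast hμm i)
    have h6 : Real.exp (μ i) * |Real.exp (t 0) - a 0| ≤ Real.exp m * δ :=
      mul_le_mul h5 h2 (abs_nonneg _) (Real.exp_pos _).le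
    have h7 : |Real.exp (t i) - a i| ≤ δ := h1
    linarith
  exact det_ineq hk (fun i => Real.exp (μ i)) G hdet a hane _ _ _ _ hQ hε
    (hermite_size μ hμ0 m hμm r hr G hG)
    (hermite_approx μ hμ0 m hμm r hr G hG) hA hai

/-- Logarithmic form. -/
theorem window_log {k : ℕ} (hk : 1 ≤ k) (t : Fin (k + 1) → ℕ) (ht : StrictMono t) (m : ℕ)
    (hm : 1 ≤ m) (hspan : ∀ i, t i ≤ t 0 + m) (r p : ℕ) (hr : 0 < r) (hp : p.Prime)
    (hpm : m < p) (hpr : p ∣ r) (D : ℝ)
    (hδ : ∀ i, distToNearestInt (Real.exp (t i)) ≤ Real.exp (-D)) :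
    0 ≤ Real.log ((k + 1)! : ℝ) + ((t 0 : ℝ) + 1) +
        k * (m + r * (k + 1) * Real.log m - Real.log ((r - 1)! : ℝ)) ∨
    0 ≤ Real.log ((k + 1)! : ℝ) + ((m : ℝ) + 1 - D) +
        ((r * (k + 1) + m) * Real.log (r * (k + 1) + m) - Real.log ((r - 1)! : ℝ)) +
        (k - 1) * (m + r * (k + 1) * Real.log m - Real.log ((r - 1)! : ℝ)) := by
  have hm' : (0 : ℝ) < m := by exact_mod_cast hm
  have hfac : (0 : ℝ) < ((r - 1)! : ℝ) := by positivity
  have hlogε : Real.log (Real.exp m * (m : ℝ) ^ (r * (k + 1)) / ((r - 1)! : ℝ)) =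
      m + r * (k + 1) * Real.log m - Real.log ((r - 1)! : ℝ) := by
    rw [Real.log_div (by positivity) hfac.ne', Real.log_mul (by positivity) (by positivity),
      Real.log_exp, Real.log_pow]
    push_cast
    ring
  have hε : (0 : ℝ) < Real.exp m * (m : ℝ) ^ (r * (k + 1)) / ((r - 1)! : ℝ) := by positivity
  rcases window_ineq hk t ht m hm hspan r p hr hp hpm hpr _ hδ with h | h
  · left
    have h1 := Real.log_le_log one_pos h
    rw [Real.log_one, Real.log_mul (by positivity) (by positivity),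
      Real.log_mul (by positivity) (by positivity), Real.log_pow, hlogε] at h1
    have h2 : Real.log (Real.exp (t 0) + 1) ≤ (t 0 : ℝ) + 1 := by
      rw [Real.log_le_iff_le_exp (by positivity), Real.exp_add]
      have h3 : (1 : ℝ) ≤ Real.exp (t 0) := Real.one_le_exp (by positivity)
      have h4 : (2 : ℝ) ≤ Real.exp 1 := by
        have := Real.add_one_le_exp (1 : ℝ)
        linarith
      nlinarith
    linarith
  · right
    have h1 := Real.log_le_log one_pos h
    rw [Real.log_one, Real.log_mul (by positivity) (by positivity),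
      Real.log_mul (by positivity) (by positivity),
      Real.log_mul (by positivity) (by positivity),
      Real.log_mul (by positivity) (by positivity),
      Real.log_exp, Real.log_pow, hlogε, Real.log_div (by positivity) hfac.ne'] at h1
    have h2 : Real.log (1 + Real.exp m) ≤ (m : ℝ) + 1 := by
      rw [Real.log_le_iff_le_exp (by positivity), Real.exp_add]
      have h3 : (1 : ℝ) ≤ Real.exp m := Real.one_le_exp (by positivity)
      have h4 : (2 : ℝ) ≤ Real.exp 1 := by
        have := Real.add_one_le_exp (1 : ℝ)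
        linarith
      nlinarith
    have h5 : Real.log ((r * (k + 1) + m) ! : ℝ) ≤
        (r * (k + 1) + m) * Real.log (r * (k + 1) + m) := by
      have h6 : (((r * (k + 1) + m) ! : ℕ) : ℝ) ≤ ((r * (k + 1) + m : ℕ) : ℝ) ^ (r * (k + 1) + m) := by
        exact_mod_cast Nat.factorial_le_pow (r * (k + 1) + m)
      have h7 := Real.log_le_log (by positivity) h6
      rw [Real.log_pow] at h7
      push_cast at h7
      exact h7
    have h8 : ((k - 1 : ℕ) : ℝ) = (k : ℝ) - 1 := by
      rw [Nat.cast_sub hk]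
      simp
    rw [h8] at h1
    linarith

end ExpPow
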